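import Pool.Agent.N375.AV.F
import Pool.Agent.N375.AV.Ex
import Pool.Agent.Results.MP_0ea415_nt.TotientOrbits

/-!
# Littlewood's conjecture at the values of compositions of additive functions

Let `A = f_1 ∘ ⋯ ∘ f_r` be a composition of functions dominated by the largest prime factor: for example additive functions
`f` with `f (q^j) ≤ C q^j` at the prime powers, with different values at different large primes (the sum of the prime factors),
the largest prime factor itself, and Kempner's function. For real `α, β, γ` and `ε > 0` we ask for `q ‖qα‖ ‖qβ - γ‖ < ε` for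
infinitely many `q`. For every `D` there is `c > 0` such that the following holds.

* Let `0 < ε ≤ 1/2`, let `G` have steps bounded below by a positive constant and growth at most `v^d`, for example
  `G v = a v^d` with `a > 0`, `d ≥ 1`, and let `κ ≥ 0`, `d (1 - c ε / log (1/ε)) + κ < 1`. For all `m ≤ N` but
  `K N exp (- b (log N) ^ (1 / (r + 1)))`, where `b > 0` and `K` do NOT depend on `α`, `β` and the polynomials:
  `q ‖qα‖ ‖q P(n) - γ‖ < ε` has infinitely many solutions `q` for ALL integers `n` within `A(m)^κ` of `G (A m)` and ALL real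
  `γ`; here `P` is a real polynomial of degree at most `D` with a nonconstant coefficient outside `ℚ + ℚα`. The same holds for
  `q ‖qα‖ ‖q g(n) β‖ < ε`, for all real `α, β` (rational or in `ℚ + ℚα` or not) and all integer polynomials `g` with
  `1 ≤ deg g ≤ D`.
* `ε` may tend to `0`: there is `L(m)` tending to infinity such that for all `m ≤ N` but `o(N)`, with the same uniformity, for
  all integers `n = a A(m) + h` with `a, |h| ≤ L(m)`, one has `liminf q ‖qα‖ ‖q P(n) - γ‖ ≤ 1 / L(m)` for all `γ` (resp.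
  `liminf q ‖qα‖ ‖q g(n) β‖ ≤ 1 / L(m)`).

The values of `A` are taken with very large multiplicities, and `A(m)` is in general much smaller than `m`, so this does not
follow from the counts of the exceptional dilations.

Proof. The exceptional `n` have a power saving, uniformly (`ProgressionsPowerSaving` of this problem, starting files). The tool
`N375/AV` (starting files) carries it over to the values of `A`; for the second part see `Run7/h430/TW/Unif`.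
-/

set_option autoImplicit false

namespace Pool.Agent.Results.MP_0ea415_nt.AdditiveValues

open Finset Filter Topology Polynomial

/-- `q ‖qα‖ ‖qβ - γ‖ < ε` for infinitely many `q` -/
def Good (ε α β γ : ℝ) : Prop :=
  ∃ᶠ q : ℕ in atTop, (q : ℝ) * |q * α - round (q * α)| * |(q * β - γ) - round (q * β - γ)| < ε

/-- all prime powers dividing `m` are smaller than `p` -/
def Below (m p : ℕ) : Prop := ∀ q j : ℕ, q.Prime → 1 ≤ j → q ^ j ∣ m → q ^ j < p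

/-- functions dominated by the largest prime factor: there is a constant `C` such that for `m ≥ 1` and the primes `p ≥ C`
larger than all prime powers dividing `m` the value `f (m p)` is at most `C p (1 + log (m p))^C`, and it determines `p` -/
def Dominated (f : ℕ → ℕ) : Prop := ∃ C : ℕ, ∀ m : ℕ, 1 ≤ m →
  (∀ p : ℕ, p.Prime → C ≤ p → Below m p → (f (m * p) : ℝ) ≤ C * p * (1 + Real.log (m * p)) ^ C) ∧
  (∀ p q : ℕ, p.Prime → q.Prime → C ≤ p → C ≤ q → Below m p → Below m q → f (m * p) = f (m * q) → p = q)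

/-- the composition `f_1 ∘ ⋯ ∘ f_r` -/
def comp (fs : List (ℕ → ℕ)) : ℕ → ℕ := fs.foldr (fun f g => f ∘ g) id

/-- The steps of `G` are at least a positive constant, and `G` grows at most like `v ^ d`, `d ≥ 1`. -/
structure Expanding (G : ℕ → ℝ) (d : ℝ) : Prop where
  one_le : 1 ≤ d
  step : ∃ a : ℝ, 0 < a ∧ ∀ v : ℕ, 1 ≤ v → a ≤ G (v + 1) - G v
  growth : ∃ C : ℝ, ∀ v : ℕ, 1 ≤ v → G v ≤ C * (v : ℝ) ^ d

/-- `P` has a nonconstant coefficient outside `ℚ + ℚα`. -/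
def Outside (α : ℝ) (P : ℝ[X]) : Prop := ∃ j : ℕ, 1 ≤ j ∧ ∀ u v : ℚ, P.coeff j ≠ u + v * α

/-- The number of the `m ≤ N` without the property `Q` is at most `K N exp (- b (log N) ^ (1 / (r + 1)))`, for all `N`. -/
def FewExceptions (b K : ℝ) (r : ℕ) (Q : ℕ → Prop) : Prop :=
  ∀ N : ℕ, 1 ≤ N → ({m : ℕ | 1 ≤ m ∧ m ≤ N ∧ ¬ Q m}.ncard : ℝ) ≤ K * N * Real.exp (-(b * Real.log N ^ ((1 : ℝ) / (r + 1))))

open Classical in
/-- The number of the positive integers `m ≤ N` without the property `P`. -/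
noncomputable def exc (N : ℕ) (P : ℕ → Prop) : ℕ := ((Icc 1 N).filter (fun m => ¬ P m)).card

open Run7.h430.TW (UnifAA)
open TotientOrbits (counts exp_bounds half good_mono Fam ncard_zero)

/-- the counts for the natural numbers as counts for heights -/
theorem height_count {Q : ℕ → Prop} {C s : ℝ} (hs : 0 ≤ s) (hC : 0 ≤ C)
    (h : ∀ X : ℕ, 1 ≤ X → ({t : ℕ | 1 ≤ t ∧ t ≤ X ∧ ¬ Q t}.ncard : ℝ) ≤ C * (X : ℝ) ^ s) (X : ℝ) (hX : 1 ≤ X) :
    {t : ℕ | (1 ≤ t ∧ ¬ Q t) ∧ (t : ℝ) ≤ X}.Finite ∧ ({t : ℕ | (1 ≤ t ∧ ¬ Q t) ∧ (t : ℝ) ≤ X}.ncard : ℝ) ≤ C * X ^ s := by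
  have hX1 : 1 ≤ ⌊X⌋₊ := Nat.le_floor (by exact_mod_cast hX)
  have e : {t : ℕ | (1 ≤ t ∧ ¬ Q t) ∧ (t : ℝ) ≤ X} = {t : ℕ | 1 ≤ t ∧ t ≤ ⌊X⌋₊ ∧ ¬ Q t} := by
    ext t
    simp only [Set.mem_ofPred_eq]
    rw [← Nat.le_floor_iff (by linarith)]
    tauto
  rw [e]
  refine ⟨(Set.finite_Iic ⌊X⌋₊).subset (fun t ht => ht.2.1), (h _ hX1).trans ?_⟩
  exact mul_le_mul_of_nonneg_left (Real.rpow_le_rpow (Nat.cast_nonneg _) (Nat.floor_le (by linarith)) hs) hC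

/-- uniform windows for natural numbers -/
theorem win {fs : List (ℕ → ℕ)} (hfs : ∀ f ∈ fs, Dominated f) {G : ℕ → ℝ} {d : ℝ} (hG : Expanding G d) {s κ : ℝ} (hs : 0 ≤ s)
    (hκ : 0 ≤ κ) (h1 : d * s + κ < 1) {C : ℝ} (hC : 0 ≤ C) :
    ∃ b K : ℝ, 0 < b ∧ ∀ Q : ℕ → Prop, (∀ X : ℕ, 1 ≤ X → ({t : ℕ | 1 ≤ t ∧ t ≤ X ∧ ¬ Q t}.ncard : ℝ) ≤ C * (X : ℝ) ^ s) →
      FewExceptions b K fs.length (fun m => ∀ n : ℕ, 1 ≤ n → |(n : ℝ) - G (comp fs m)| ≤ (comp fs m : ℝ) ^ κ → Q n) := by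
  obtain ⟨b, K, hb, h2⟩ := Pool.Agent.N375.AV.good_unif (fun n : ℕ => (n : ℝ)) fs hfs
    (G := G) (d := d) ⟨hG.one_le, hG.step, hG.growth⟩ hs hκ h1 C
  exact ⟨b, K, hb, fun Q hQ N hN => h2 (fun n => 1 ≤ n) Q (fun X hX => height_count hs hC hQ X hX) N hN⟩

theorem rate_small (b K : ℝ) (hb : 0 < b) (r : ℕ) (δ : ℝ) (hδ : 0 < δ) : ∃ N₀ : ℕ, ∀ N : ℕ, N₀ ≤ N →
    K * N * Real.exp (-(b * Real.log N ^ ((1 : ℝ) / (r + 1)))) ≤ δ * N := by
  have h1 : Tendsto (fun N : ℕ => K * Real.exp (-(b * Real.log (N : ℝ) ^ ((1 : ℝ) / (r + 1))))) atTop (𝓝 (K * 0)) := by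
    refine Tendsto.const_mul K (Real.tendsto_exp_neg_atTop_nhds_zero.comp ?_)
    refine Tendsto.const_mul_atTop hb ?_
    exact (tendsto_rpow_atTop (by positivity)).comp (Real.tendsto_log_atTop.comp tendsto_natCast_atTop_atTop)
  rw [mul_zero] at h1
  obtain ⟨N₀, h2⟩ := eventually_atTop.1 (h1.eventually (eventually_le_nhds hδ))
  refine ⟨N₀, fun N hN => ?_⟩
  have h3 := h2 N hN
  calc K * N * Real.exp (-(b * Real.log N ^ ((1 : ℝ) / (r + 1))))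
      = (K * Real.exp (-(b * Real.log N ^ ((1 : ℝ) / (r + 1))))) * N := by ring
    _ ≤ δ * N := mul_le_mul_of_nonneg_right h3 (Nat.cast_nonneg _)

theorem unif_of_few {ι : Type*} {b K : ℝ} (hb : 0 < b) {r : ℕ} {Q : ι → ℕ → Prop} (h : ∀ i, FewExceptions b K r (Q i)) :
    UnifAA Q := by
  classical
  intro δ hδ
  obtain ⟨N₀, h1⟩ := rate_small b K hb r δ hδ
  refine ⟨max N₀ 1, fun N hN i => ?_⟩
  have h2 := h i N ((le_max_right _ _).trans hN)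
  refine le_trans (le_of_eq ?_) (h2.trans (h1 N ((le_max_left _ _).trans hN)))
  rw [← Set.ncard_coe_finset]
  congr 2
  ext m
  rw [mem_coe, mem_filter, mem_Icc]
  simp only [Set.mem_ofPred_eq]
  tauto

theorem expanding_lin {a : ℕ} (ha : 1 ≤ a) (h : ℤ) : Expanding (fun v => (a : ℝ) * v + h) 1 := by
  obtain ⟨h1, h2, h3⟩ := Run7.h430.TW.expanding_lin ha h
  exact ⟨h1, h2, h3⟩

theorem fam_mono {D : ℕ} (i : (ℝ × ℝ[X]) ⊕ (ℝ × ℝ × ℤ[X])) (a b n : ℕ) (hab : a ≤ b) (hq : Fam D i b n) : Fam D i a n := by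
  have e : 1 / (b + 2 : ℝ) ≤ 1 / (a + 2 : ℝ) := one_div_le_one_div_of_le (by positivity) (by
    have : (a : ℝ) ≤ b := by exact_mod_cast hab
    linarith)
  rcases i with ⟨α, P⟩ | ⟨α, β, g⟩
  · exact fun u1 u2 γ => good_mono e (hq u1 u2 γ)
  · exact fun u1 u2 => good_mono e (hq u1 u2)

theorem fam_count (D : ℕ) : ∃ c C : ℝ, 0 < c ∧ c ≤ 1 ∧ 0 < C ∧ ∀ (i : (ℝ × ℝ[X]) ⊕ (ℝ × ℝ × ℤ[X])) (j X : ℕ), 1 ≤ X →
    ({t : ℕ | 1 ≤ t ∧ t ≤ X ∧ ¬ Fam D i j t}.ncard : ℝ) ≤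
      2 * (C / (1 / (j + 2 : ℝ))) * (X : ℝ) ^ (1 - c * (1 / (j + 2 : ℝ)) / Real.log (1 / (1 / (j + 2 : ℝ)))) := by
  obtain ⟨c, C, hc, hc1, hC, h1⟩ := counts D
  refine ⟨c, C, hc, hc1, hC, fun i j X hX => ?_⟩
  obtain ⟨e1, e2⟩ := half j
  rcases i with ⟨α, P⟩ | ⟨α, β, g⟩
  · by_cases hu : P.natDegree ≤ D ∧ TotientOrbits.Outside α P
    · have h3 := (h1 _ e1 e2 α).1 P hu.1 hu.2 X hX
      refine le_trans (le_of_eq ?_) h3
      congr 2
      ext t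
      simp only [Fam, Set.mem_ofPred_eq]
      constructor
      · rintro ⟨a1, a2, a3⟩
        exact ⟨a1, a2, fun hh => a3 (fun _ _ => hh)⟩
      · rintro ⟨a1, a2, a3⟩
        exact ⟨a1, a2, fun hh => a3 (hh hu.1 hu.2)⟩
    · refine ncard_zero (fun t ht => ht.2.2 (fun u1 u2 => absurd ⟨u1, u2⟩ hu)) (by positivity)
  · by_cases hu : 1 ≤ g.natDegree ∧ g.natDegree ≤ D
    · have h3 := (h1 _ e1 e2 α).2 β g hu.1 hu.2 X hX
      refine le_trans (le_of_eq ?_) h3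
      congr 2
      ext t
      simp only [Fam, Set.mem_ofPred_eq]
      constructor
      · rintro ⟨a1, a2, a3⟩
        exact ⟨a1, a2, fun hh => a3 (fun _ _ => hh)⟩
      · rintro ⟨a1, a2, a3⟩
        exact ⟨a1, a2, fun hh => a3 (hh hu.1 hu.2)⟩
    · refine ncard_zero (fun t ht => ht.2.2 (fun u1 u2 => absurd ⟨u1, u2⟩ hu)) (by positivity)

theorem slow (D : ℕ) {fs : List (ℕ → ℕ)} (hfs : ∀ f ∈ fs, Dominated f) :
    ∃ L : ℕ → ℕ, Tendsto L atTop atTop ∧ UnifAA (fun (i : (ℝ × ℝ[X]) ⊕ (ℝ × ℝ × ℤ[X])) m =>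
      ∀ a : ℕ, 1 ≤ a → a ≤ L m → ∀ h : ℤ, |h| ≤ L m → ∀ n : ℕ, 1 ≤ n → (n : ℤ) = a * comp fs m + h →
        Fam D i (L m) n) := by
  classical
  refine UnifAA.diagonal (P := fun (i : (ℝ × ℝ[X]) ⊕ (ℝ × ℝ × ℤ[X])) j m => ∀ a : ℕ, 1 ≤ a → a ≤ j →
    ∀ h : ℤ, |h| ≤ j → ∀ n : ℕ, 1 ≤ n → (n : ℤ) = a * comp fs m + h → Fam D i j n) ?_ (fun j => ?_)
  · intro i u j m hij h a ha1 ha b hb n hn he
    exact fam_mono i u j n hij (h a ha1 (ha.trans hij) b (hb.trans (by exact_mod_cast hij)) n hn he)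
  · obtain ⟨c, C, hc, hc1, hC, hcount⟩ := fam_count D
    obtain ⟨e1, e2⟩ := half j
    obtain ⟨b1, b2⟩ := exp_bounds hc hc1 e1 e2
    have h1 : ∀ p ∈ (Finset.Icc 1 j) ×ˢ (Finset.Icc (-(j : ℤ)) j), UnifAA (fun (i : (ℝ × ℝ[X]) ⊕ (ℝ × ℝ × ℤ[X])) m =>
        ∀ n : ℕ, 1 ≤ n → |(n : ℝ) - ((p.1 : ℝ) * (comp fs m : ℝ) + p.2)| ≤ (comp fs m : ℝ) ^ (0 : ℝ) → Fam D i j n) := by
      rintro ⟨a, h⟩ hp
      rw [mem_product, Finset.mem_Icc, Finset.mem_Icc] at hp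
      obtain ⟨b, K, hb, h2⟩ := win hfs (expanding_lin hp.1.1 h) (κ := 0) b1 le_rfl (by linarith)
        (C := 2 * (C / (1 / (j + 2 : ℝ)))) (by positivity)
      exact unif_of_few hb (fun i => h2 (Fam D i j) (fun X hX => hcount i j X hX))
    refine (UnifAA.finset _ h1).mono (fun i m hm a ha1 ha h hh n hn he => ?_)
    rw [abs_le] at hh
    refine hm (a, h) (by
      rw [mem_product, Finset.mem_Icc, Finset.mem_Icc]
      exact ⟨⟨ha1, ha⟩, hh⟩) n hn ?_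
    have e1 : (n : ℝ) = a * comp fs m + h := by exact_mod_cast he
    rw [e1, sub_self, abs_zero, Real.rpow_zero]
    exact zero_le_one

theorem exc_mono {N : ℕ} {P Q : ℕ → Prop} {δ : ℝ} {dP : DecidablePred (fun m => ¬ P m)}
    (h : (((@Finset.filter _ (fun m => ¬ P m) dP (Icc 1 N))).card : ℝ) ≤ δ * N)
    (hPQ : ∀ m, P m → Q m) : (exc N Q : ℝ) ≤ δ * N := by
  classical
  refine le_trans (Nat.cast_le.2 (Pool.Agent.N826.IT.Orb.card_mono' ?_)) h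
  intro m hm h1
  exact hm (hPQ m h1)

/-- **Littlewood's conjecture at the values of compositions of additive functions.** -/
theorem result (D : ℕ) : ∃ c : ℝ, 0 < c ∧
    (∀ fs : List (ℕ → ℕ), (∀ f ∈ fs, Dominated f) →
      -- windows, for a fixed `ε`, with a rate
      (∀ ε : ℝ, 0 < ε → ε ≤ 1 / 2 → ∀ (G : ℕ → ℝ) (d : ℝ), Expanding G d → ∀ κ : ℝ, 0 ≤ κ →
        d * (1 - c * ε / Real.log (1 / ε)) + κ < 1 → ∃ b K : ℝ, 0 < b ∧ ∀ α : ℝ,
          (∀ P : ℝ[X], P.natDegree ≤ D → Outside α P →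
            FewExceptions b K fs.length (fun m => ∀ n : ℕ, 1 ≤ n → |(n : ℝ) - G (comp fs m)| ≤ (comp fs m : ℝ) ^ κ →
              ∀ γ : ℝ, Good ε α (P.eval (n : ℝ)) γ)) ∧
          (∀ (β : ℝ) (g : ℤ[X]), 1 ≤ g.natDegree → g.natDegree ≤ D →
            FewExceptions b K fs.length (fun m => ∀ n : ℕ, 1 ≤ n → |(n : ℝ) - G (comp fs m)| ≤ (comp fs m : ℝ) ^ κ →
              Good ε α (((g.eval (n : ℤ) : ℤ) : ℝ) * β) 0))) ∧
      -- `ε` tending to zero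
      (∃ L : ℕ → ℕ, Tendsto L atTop atTop ∧
        ∀ δ : ℝ, 0 < δ → ∃ N₀ : ℕ, ∀ N : ℕ, N₀ ≤ N → ∀ α : ℝ,
          (∀ P : ℝ[X], P.natDegree ≤ D → Outside α P →
            (exc N (fun m => ∀ a : ℕ, 1 ≤ a → a ≤ L m → ∀ h : ℤ, |h| ≤ L m → ∀ n : ℕ, 1 ≤ n →
              (n : ℤ) = a * comp fs m + h → ∀ γ : ℝ, Good (1 / L m) α (P.eval (n : ℝ)) γ) : ℝ) ≤ δ * N) ∧
          (∀ (β : ℝ) (g : ℤ[X]), 1 ≤ g.natDegree → g.natDegree ≤ D →
            (exc N (fun m => ∀ a : ℕ, 1 ≤ a → a ≤ L m → ∀ h : ℤ, |h| ≤ L m → ∀ n : ℕ, 1 ≤ n →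
              (n : ℤ) = a * comp fs m + h → Good (1 / L m) α (((g.eval (n : ℤ) : ℤ) : ℝ) * β) 0) : ℝ) ≤ δ * N))) ∧
    (∀ f : ℕ → ℕ, (∀ a b : ℕ, Nat.Coprime a b → f (a * b) = f a + f b) →
      (∃ C : ℕ, ∀ q j : ℕ, q.Prime → 1 ≤ j → f (q ^ j) ≤ C * q ^ j) →
      (∃ P : ℕ, ∀ p q : ℕ, p.Prime → q.Prime → P ≤ p → P ≤ q → f p = f q → p = q) → Dominated f) ∧
    (Dominated (fun n => n.primeFactorsList.sum) ∧ Dominated (fun n => n.primeFactors.sup id) ∧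
      Dominated (fun n => sInf {k : ℕ | n ∣ k.factorial})) ∧
    ∀ α d : ℝ, 0 < α → 1 ≤ d → Expanding (fun v => α * (v : ℝ) ^ d) d := by
  obtain ⟨c, C, hc, hc1, hC, hcount⟩ := counts D
  refine ⟨c, hc, fun fs hfs => ⟨fun ε hε hε2 G d hG κ hκ h1 => ?_, ?_⟩,
    fun f h2 h3 h4 => Pool.Agent.N375.AV.pd_additive h2 h3 h4,
    ⟨Pool.Agent.N375.AV.pd_sopfr, Pool.Agent.N375.AV.pd_largest, Pool.Agent.N375.AV.pd_kempner⟩, fun α d hα hd => ?_⟩
  · obtain ⟨b1, b2⟩ := exp_bounds hc hc1 hε hε2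
    obtain ⟨b, K, hb, h2⟩ := win hfs hG b1 hκ h1 (C := 2 * (C / ε)) (by positivity)
    exact ⟨b, K, hb, fun α => ⟨fun P hP hout => h2 _ (fun X hX => (hcount ε hε hε2 α).1 P hP hout X hX),
      fun β g hg1 hg2 => h2 _ (fun X hX => (hcount ε hε hε2 α).2 β g hg1 hg2 X hX)⟩⟩
  · obtain ⟨L, hL, h2⟩ := slow D hfs
    refine ⟨L, hL, fun δ hδ => ?_⟩
    obtain ⟨N₀, h3⟩ := h2 δ hδ
    have hle : ∀ m a : ℕ, 1 ≤ a → a ≤ L m → 1 / ((L m : ℕ) + 2 : ℝ) ≤ 1 / (L m : ℝ) := by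
      intro m a ha1 ha
      refine one_div_le_one_div_of_le ?_ (by linarith)
      have : (1 : ℝ) ≤ L m := by exact_mod_cast ha1.trans ha
      linarith
    refine ⟨N₀, fun N hN α => ⟨fun P hP hout => ?_, fun β g hg1 hg2 => ?_⟩⟩
    · exact exc_mono (h3 N hN (Sum.inl (α, P))) (fun m hm a ha1 ha h hh n hn he γ =>
        good_mono (hle m a ha1 ha) (hm a ha1 ha h hh n hn he hP hout γ))
    · exact exc_mono (h3 N hN (Sum.inr (α, β, g))) (fun m hm a ha1 ha h hh n hn he =>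
        good_mono (hle m a ha1 ha) (hm a ha1 ha h hh n hn he hg1 hg2))
  · obtain ⟨h1, h2, h3⟩ := Pool.Agent.N733.TG.expanding_pow hα hd
    exact ⟨h1, h2, h3⟩

end Pool.Agent.Results.MP_0ea415_nt.AdditiveValues
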